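import Mathlib

/-!
# A connected binary matroid whose Penrose polynomial has the double root `1`
-/

set_option autoImplicit false

namespace Pool.Agent.Results.MP_8c6d5c_co.DoubleRoot

open Polynomial

section Defs

variable {E : Type*} [Fintype E] [DecidableEq E]

/-- The intersection of `A` with the subset of `E` given by the indicator vector `c`. -/
def inter (A : Finset E) (c : E → ZMod 2) : E → ZMod 2 := fun e => if e ∈ A then c e else 0

/-- The cocycle space `𝒦 = 𝒞^⊥`. Subsets of `E` are written as vectors `E → ZMod 2`. -/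
def cocycles (C : Submodule (ZMod 2) (E → ZMod 2)) : Submodule (ZMod 2) (E → ZMod 2) where
  carrier := {v | ∀ c ∈ C, ∑ e, v e * c e = 0}
  add_mem' := by
    intro a b ha hb c hc
    simp only [Pi.add_apply, add_mul, Finset.sum_add_distrib, ha c hc, hb c hc, add_zero]
  zero_mem' := by
    intro c _
    simp
  smul_mem' := by
    intro r a ha c hc
    simp only [Pi.smul_apply, smul_eq_mul, mul_assoc, ← Finset.mul_sum, ha c hc, mul_zero]

/-- The bicycle space `ℬ(A) = {c ∈ 𝒞 : c ∩ A ∈ 𝒦}`. -/
def bicycles (C : Submodule (ZMod 2) (E → ZMod 2)) (A : Finset E) :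
    Submodule (ZMod 2) (E → ZMod 2) where
  carrier := {c | c ∈ C ∧ inter A c ∈ cocycles C}
  add_mem' := by
    rintro a b ⟨ha, ha'⟩ ⟨hb, hb'⟩
    refine ⟨C.add_mem ha hb, ?_⟩
    have : inter A (a + b) = inter A a + inter A b := by
      funext e
      by_cases h : e ∈ A <;> simp [inter, h]
    rw [this]
    exact (cocycles C).add_mem ha' hb'
  zero_mem' := by
    refine ⟨C.zero_mem, ?_⟩
    have : inter A (0 : E → ZMod 2) = 0 := by
      funext e
      by_cases h : e ∈ A <;> simp [inter, h]
    rw [this]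
    exact (cocycles C).zero_mem
  smul_mem' := by
    rintro r a ⟨ha, ha'⟩
    refine ⟨C.smul_mem r ha, ?_⟩
    have : inter A (r • a) = r • inter A a := by
      funext e
      by_cases h : e ∈ A <;> simp [inter, h]
    rw [this]
    exact (cocycles C).smul_mem r ha'

/-- The Penrose polynomial `∑_A (-1)^|A| λ^{dim ℬ(A)}` of the binary matroid with cycle space
`C`. -/
noncomputable def penrose (C : Submodule (ZMod 2) (E → ZMod 2)) : ℤ[X] :=
  ∑ A : Finset E, (-1) ^ A.card * X ^ Module.finrank (ZMod 2) (bicycles C A)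

/-- Connectivity of the binary matroid with cycle space `C`: `E` is nonempty and for no partition of
`E` into nonempty parts `F` and `Fᶜ` the cycles are exactly the unions of a cycle contained in `F`
and a cycle contained in `Fᶜ`. -/
def IsConnected (C : Submodule (ZMod 2) (E → ZMod 2)) : Prop :=
  Nonempty E ∧ ∀ F : Finset E, F.Nonempty → Fᶜ.Nonempty →
    ¬ ∀ c, c ∈ C ↔ (inter F c ∈ C ∧ inter Fᶜ c ∈ C)

end Defs

/-! ### The example -/

/-- The columns of the generator matrix, as binary numbers. -/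
def g (e : ℕ) : ℕ := match e with
  | 0 => 1
  | 1 => 2
  | 2 => 3
  | 3 => 4
  | 4 => 5
  | 5 => 6
  | 6 => 31
  | 7 => 8
  | _ => 16

/-- the `k`-th binary digit -/
def bit (m k : ℕ) : ZMod 2 := if m.testBit k then 1 else 0

/-- contribution of the element `e` -/
def con (e x : ℕ) : ℕ := if (0x96696996 >>> (g e &&& x)) % 2 = 1 then g e else 0

def cnt (s : ℕ → ℕ) : ℕ → ℕ
  | 0 => 0
  | n + 1 => if s n = 0 then cnt s n + 1 else cnt s n

def T (d : ℕ) : List ℕ → (ℕ → ℕ) → ℤ
  | [], s => if cnt s 32 = 2 ^ d then 1 else 0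
  | e :: l, s => T d l s - T d l (fun x => s x ^^^ con e x)

theorem T0 : T 0 [0, 1, 2, 3, 4, 5, 6, 7, 8] (fun _ => 0) = -8 := by decide +kernel
theorem T1 : T 1 [0, 1, 2, 3, 4, 5, 6, 7, 8] (fun _ => 0) = 28 := by decide +kernel
theorem T2 : T 2 [0, 1, 2, 3, 4, 5, 6, 7, 8] (fun _ => 0) = -38 := by decide +kernel
theorem T3 : T 3 [0, 1, 2, 3, 4, 5, 6, 7, 8] (fun _ => 0) = 25 := by decide +kernel
theorem T4 : T 4 [0, 1, 2, 3, 4, 5, 6, 7, 8] (fun _ => 0) = -8 := by decide +kernel
theorem T5 : T 5 [0, 1, 2, 3, 4, 5, 6, 7, 8] (fun _ => 0) = 1 := by decide +kernel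

/-- The generator map. -/
def gen : (Fin 5 → ZMod 2) →ₗ[ZMod 2] (Fin 9 → ZMod 2) where
  toFun y e := ∑ k, y k * bit (g e) k
  map_add' := by
    intro y z
    funext e
    simp only [Pi.add_apply, add_mul, Finset.sum_add_distrib]
  map_smul' := by
    intro r y
    funext e
    simp only [Pi.smul_apply, smul_eq_mul, mul_assoc, ← Finset.mul_sum, RingHom.id_apply]

theorem gen_apply (y : Fin 5 → ZMod 2) (e : Fin 9) : gen y e = ∑ k, y k * bit (g e) k := rfl

/-- The cycle space of the example. -/
def Cyc : Submodule (ZMod 2) (Fin 9 → ZMod 2) := LinearMap.range gen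

theorem gen_inj : Function.Injective gen := by
  rw [← LinearMap.ker_eq_bot, LinearMap.ker_eq_bot']
  have key : ∀ y : Fin 5 → ZMod 2, gen y = 0 → y = 0 := by decide +kernel
  exact key

/-- the vector with the binary digits of `x` -/
def vec (x : ℕ) : Fin 5 → ZMod 2 := fun k => bit x k

theorem gen_vec : ∀ (e : Fin 9) (x : Fin 32), gen (vec x) e =
    if (0x96696996 >>> (g e &&& x)) % 2 = 1 then 1 else 0 := by
  decide +kernel

theorem bit_xor (a b k : ℕ) : bit (a ^^^ b) k = bit a k + bit b k := by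
  unfold bit
  rw [Nat.testBit_xor]
  cases a.testBit k <;> cases b.testBit k <;> decide

/-- the sum of the contributions of the elements of `A` -/
def rF (A : Finset (Fin 9)) (x : ℕ) : ℕ := A.fold (· ^^^ ·) 0 (fun e : Fin 9 => con e x)

theorem rF_insert {A : Finset (Fin 9)} {e : Fin 9} (he : e ∉ A) (x : ℕ) :
    rF (insert e A) x = con e x ^^^ rF A x := Finset.fold_insert he

theorem rF_lt (A : Finset (Fin 9)) (x : ℕ) : rF A x < 32 := by
  induction A using Finset.induction with
  | empty => simp [rF]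
  | insert e A he ih =>
    rw [rF_insert he]
    have h1 : con e x < 2 ^ 5 := by
      unfold con
      have : ∀ e : Fin 9, g e < 32 := by decide
      split_ifs
      · exact this e
      · norm_num
    exact Nat.xor_lt_two_pow h1 ih

theorem bit_rF (A : Finset (Fin 9)) (x : Fin 32) (j : ℕ) :
    bit (rF A x) j = ∑ e ∈ A, gen (vec x) e * bit (g e) j := by
  induction A using Finset.induction with
  | empty => simp [rF, bit]
  | insert e A he ih =>
    rw [rF_insert he, bit_xor, ih, Finset.sum_insert he, gen_vec]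
    congr 1
    unfold con
    split_ifs
    · rw [one_mul]
    · rw [zero_mul]; simp [bit]

theorem eq_zero_of_bits {m : ℕ} (hm : m < 32) (h : ∀ j : Fin 5, bit m j = 0) : m = 0 := by
  apply Nat.eq_of_testBit_eq
  intro j
  rw [Nat.zero_testBit]
  by_cases hj : j < 5
  · have := h ⟨j, hj⟩
    unfold bit at this
    by_contra hne
    rw [Bool.not_eq_false] at hne
    rw [if_pos hne] at this
    exact one_ne_zero this
  · exact Nat.testBit_lt_two_pow (hm.trans_le (Nat.pow_le_pow_right (n := 2) (i := 5)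
      (by norm_num) (not_lt.1 hj)))

theorem vec_bij : Function.Bijective (fun x : Fin 32 => vec x) := by
  have hinj : Function.Injective (fun x : Fin 32 => vec x) := by decide +kernel
  rw [Fintype.bijective_iff_injective_and_card]
  refine ⟨hinj, ?_⟩
  rw [Fintype.card_fin, Fintype.card_fun, ZMod.card, Fintype.card_fin]
  norm_num

/-- The preimage of the bicycle space. -/
theorem mem_bicycles (A : Finset (Fin 9)) (x : Fin 32) :
    gen (vec x) ∈ bicycles Cyc A ↔ rF A x = 0 := by
  have h1 : gen (vec x) ∈ bicycles Cyc A ↔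
      ∀ j : Fin 5, ∑ e, inter A (gen (vec x)) e * bit (g e) j = 0 := by
    constructor
    · rintro ⟨-, h⟩ j
      have := h (gen (Pi.single j 1)) ⟨_, rfl⟩
      rw [← this]
      refine Finset.sum_congr rfl fun e _ => ?_
      congr 1
      rw [gen_apply, Finset.sum_eq_single j]
      · simp
      · intro b _ hb
        rw [Pi.single_eq_of_ne hb, zero_mul]
      · simp
    · intro h
      refine ⟨⟨_, rfl⟩, ?_⟩
      rintro c ⟨z, rfl⟩
      simp only [gen_apply z, Finset.mul_sum]
      rw [Finset.sum_comm]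
      refine Finset.sum_eq_zero fun j _ => ?_
      have : ∀ e, inter A (gen (vec x)) e * (z j * bit (g e) j) =
          z j * (inter A (gen (vec x)) e * bit (g e) j) := fun e => by ring
      rw [Finset.sum_congr rfl fun e _ => this e, ← Finset.mul_sum, h j, mul_zero]
  have h2 : ∀ j : Fin 5, ∑ e, inter A (gen (vec x)) e * bit (g e) j = bit (rF A x) j := by
    intro j
    rw [bit_rF]
    simp only [inter, ite_mul, zero_mul, Finset.sum_ite_mem, Finset.univ_inter]
  rw [h1]
  constructor
  · intro h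
    exact eq_zero_of_bits (rF_lt A x) fun j => by rw [← h2, h j]
  · intro h j
    rw [h2, h]
    simp [bit]

theorem cnt_eq (s : ℕ → ℕ) (n : ℕ) :
    cnt s n = (Finset.univ.filter fun x : Fin n => s x = 0).card := by
  induction n with
  | zero => simp [cnt]
  | succ n ih =>
    rw [Finset.card_filter] at ih
    rw [cnt, Finset.card_filter, Fin.sum_univ_castSucc, ih]
    by_cases h : s n = 0
    · simp [h]
    · simp [h]

/-- The dimension of the bicycle space. -/
theorem two_pow_finrank (A : Finset (Fin 9)) :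
    2 ^ Module.finrank (ZMod 2) (bicycles Cyc A) = cnt (rF A) 32 := by
  have : Fintype (bicycles Cyc A) := Fintype.ofFinite _
  have h1 := Module.card_eq_pow_finrank (K := ZMod 2) (V := bicycles Cyc A)
  rw [ZMod.card] at h1
  rw [← h1, cnt_eq, ← Fintype.card_subtype]
  symm
  refine Fintype.card_congr (Equiv.ofBijective
    (fun x : {x : Fin 32 // rF A x = 0} =>
      (⟨gen (vec x.1), (mem_bicycles A x.1).2 x.2⟩ : bicycles Cyc A)) ⟨?_, ?_⟩)
  · intro x y hxy
    have h2 := congrArg Subtype.val hxy
    exact Subtype.ext (vec_bij.1 (gen_inj h2))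
  · rintro ⟨c, hc⟩
    obtain ⟨y, rfl⟩ := hc.1
    obtain ⟨x, rfl⟩ := vec_bij.2 y
    exact ⟨⟨x, (mem_bicycles A x).1 hc⟩, rfl⟩

theorem T_eq (d : ℕ) (l : List (Fin 9)) (hl : l.Nodup) (s : ℕ → ℕ) :
    T d (l.map Fin.val) s = ∑ A ∈ l.toFinset.powerset,
      (-1) ^ A.card * if cnt (fun x => s x ^^^ rF A x) 32 = 2 ^ d then 1 else 0 := by
  induction l generalizing s with
  | nil => simp [T, rF]
  | cons e l ih =>
    have he : e ∉ l.toFinset := by
      rw [List.mem_toFinset]; exact (List.nodup_cons.1 hl).1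
    rw [List.toFinset_cons, Finset.sum_powerset_insert he, List.map_cons, T,
      ih (List.nodup_cons.1 hl).2, ih (List.nodup_cons.1 hl).2, sub_eq_add_neg,
      ← Finset.sum_neg_distrib]
    congr 1
    refine Finset.sum_congr rfl fun A hA => ?_
    have heA : e ∉ A := fun h => he (Finset.mem_powerset.1 hA h)
    rw [Finset.card_insert_of_notMem heA, pow_succ]
    have : (fun x => s x ^^^ con e x ^^^ rF A x) = fun x => s x ^^^ rF (insert e A) x := by
      funext x
      rw [rF_insert heA, Nat.xor_assoc]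
    rw [this]
    ring

theorem coeff_sum (d : ℕ) : ∑ A : Finset (Fin 9),
    ((-1) ^ A.card * if Module.finrank (ZMod 2) (bicycles Cyc A) = d then (1 : ℤ) else 0) =
      T d [0, 1, 2, 3, 4, 5, 6, 7, 8] (fun _ => 0) := by
  have h := T_eq d [0, 1, 2, 3, 4, 5, 6, 7, 8] (by decide) (fun _ => 0)
  have h1 : (List.map Fin.val [(0 : Fin 9), 1, 2, 3, 4, 5, 6, 7, 8]) =
    [0, 1, 2, 3, 4, 5, 6, 7, 8] := rfl
  have h2 : ([(0 : Fin 9), 1, 2, 3, 4, 5, 6, 7, 8].toFinset) = Finset.univ := by decide
  rw [h1, h2, Finset.powerset_univ] at h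
  rw [h]
  refine Finset.sum_congr rfl fun A _ => ?_
  have h3 : (fun x => 0 ^^^ rF A x) = rF A := by
    funext x
    rw [Nat.zero_xor]
  rw [h3, ← two_pow_finrank]
  simp only [Nat.pow_right_inj (le_refl 2)]

theorem finrank_lt (A : Finset (Fin 9)) : Module.finrank (ZMod 2) (bicycles Cyc A) < 6 := by
  have h : bicycles Cyc A ≤ Cyc := fun c hc => hc.1
  have h1 := Submodule.finrank_mono h
  have h2 : Module.finrank (ZMod 2) Cyc = 5 := by
    unfold Cyc
    rw [LinearMap.finrank_range_of_inj gen_inj]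
    simp
  omega

theorem penrose_eq : penrose Cyc = (X - 1) ^ 2 * (X - 2) ^ 3 := by
  have h1 : penrose Cyc = ∑ d ∈ Finset.range 6,
      C (∑ A : Finset (Fin 9), ((-1) ^ A.card *
        if Module.finrank (ZMod 2) (bicycles Cyc A) = d then (1 : ℤ) else 0)) * X ^ d := by
    unfold penrose
    simp only [map_sum, Finset.sum_mul]
    rw [Finset.sum_comm]
    refine Finset.sum_congr rfl fun A _ => ?_
    rw [Finset.sum_eq_single (Module.finrank (ZMod 2) (bicycles Cyc A))]
    · simp
    · intro d _ hd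
      rw [if_neg (Ne.symm hd)]
      simp
    · intro h
      exact absurd (Finset.mem_range.2 (finrank_lt A)) h
  rw [h1]
  simp only [coeff_sum, Finset.sum_range_succ, Finset.sum_range_zero, T0, T1, T2, T3, T4, T5]
  simp only [map_neg, map_ofNat, map_one]
  ring

theorem connected : IsConnected Cyc := by
  refine ⟨⟨0⟩, ?_⟩
  have key : ∀ (k : Fin 5) (y : Fin 5 → ZMod 2),
      (∀ e, gen y e ≠ 0 → gen (Pi.single k 1) e ≠ 0) → y = 0 ∨ y = Pi.single k 1 := by
    decide +kernel
  have cover : ∀ e : Fin 9, ∃ k : Fin 5, gen (Pi.single k 1) e ≠ 0 := by decide +kernel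
  have six : ∀ k : Fin 5, gen (Pi.single k 1) 6 ≠ 0 := by decide +kernel
  have main : ∀ F : Finset (Fin 9), 6 ∈ F → (∀ c, c ∈ Cyc → inter F c ∈ Cyc) →
      F = Finset.univ := by
    intro F h6 hF
    rw [Finset.eq_univ_iff_forall]
    intro e
    obtain ⟨k, hk⟩ := cover e
    obtain ⟨y, hy⟩ := hF (gen (Pi.single k 1)) ⟨_, rfl⟩
    have h1 := key k y (by
      intro e' he'
      rw [hy] at he'
      unfold inter at he'
      split_ifs at he'
      · exact he'
      · exact absurd rfl he')
    rcases h1 with rfl | rfl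
    · exfalso
      have h2 := congrFun hy 6
      rw [map_zero] at h2
      unfold inter at h2
      rw [if_pos h6] at h2
      exact six k h2.symm
    · by_contra he
      have h2 := congrFun hy e
      unfold inter at h2
      rw [if_neg he] at h2
      exact hk h2
  intro F hF1 hF2 hF
  by_cases h6 : (6 : Fin 9) ∈ F
  · have := main F h6 fun c hc => ((hF c).1 hc).1
    rw [this] at hF2
    simp at hF2
  · have := main Fᶜ (Finset.mem_compl.2 h6) fun c hc => ((hF c).1 hc).2
    rw [Finset.compl_eq_univ_iff] at this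
    rw [this] at hF1
    simp at hF1

/-- There is a connected binary matroid on nine elements with Penrose polynomial
`(λ - 1)² (λ - 2)³`. -/
theorem result : ∃ C : Submodule (ZMod 2) (Fin 9 → ZMod 2), IsConnected C ∧
    penrose C = (X - 1) ^ 2 * (X - 2) ^ 3 ∧ penrose C ≠ 0 ∧ (X - 1) ^ 2 ∣ penrose C := by
  refine ⟨Cyc, connected, penrose_eq, ?_, ?_⟩
  · rw [penrose_eq]
    refine mul_ne_zero (pow_ne_zero _ ?_) (pow_ne_zero _ ?_)
    · exact X_sub_C_ne_zero (1 : ℤ)
    · exact X_sub_C_ne_zero (2 : ℤ)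
  · rw [penrose_eq]
    exact dvd_mul_right _ _

end Pool.Agent.Results.MP_8c6d5c_co.DoubleRoot
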